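import Pool.Agent.Helper363_LBM.Pairs

/-!
# The walk on every quadrangulation passes between connected sets at rate `1 / N`

Let `q` be any quadrangulation of the sphere with `N` faces, and let `V 0`, …, `V 3` be
independent random vertices with any common law, for example four independent uniform vertices of
a uniform quadrangulation. Join any two vertices `u`, `v` by a connected set `S u v`, for example
a geodesic. Then, with probability at least `2 / 3`, either `S (V 0) (V 1)` and `S (V 2) (V 3)`
intersect, or the stationary simple random walk passes from the first to the second with frequency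
at least `1 / (2 N)` per step. Moreover, the walk is at least twice as likely to be fast as to be
slow: a frequency of at most `r` is at most half as likely as a frequency of at least
`1 / (4 N ^ 2 r)`.

The proof: of the three ways to divide four vertices into two pairs at most one has a frequency
below `1 / (2 N)`, by the area inequality for closed paths with four sides.
-/

set_option autoImplicit false

open MeasureTheory ProbabilityTheory Set

open Pool.Agent.Helper363_LBM

open Classical in
/-- Let `q` be a quadrangulation of the sphere with `N` faces, `e` the stationary simple random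
walk on it, and for any two vertices `u`, `v` let `S u v = S v u` be a set which contains a walk
from `u` to `v`. Let four vertices `v 0, …, v 3` be independent with the common law `m`, and let
`p` be the probability that the walk starts in `S (v 0) (v 1)` and visits `S (v 2) (v 3)` before
it returns to `S (v 0) (v 1)`. Then the probability that the two sets are disjoint and
`p < 1 / (2 N)` is at most `1 / 3`, and, for every `r < 1 / (2 N)`, twice the probability that
they are disjoint and `p ≤ r` is at most the probability that they are not disjoint or
`p ≥ 1 / (4 N ^ 2 r)`. -/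
theorem Pool.Agent.Results.MP_7a6434d8_pr.PassageRate.result {N : ℕ} (hN : 0 < N) (q : Quad N)
    {Ω : Type} [MeasurableSpace Ω] (P : Measure Ω) [IsProbabilityMeasure P]
    (e : Ω → ℕ → Fin (4 * N)) (hS : IsSRW P (fun _ => q) e)
    (hst : ∀ d, P.real {ω | e ω 0 = d} = 1 / (4 * N))
    (S : q.Vert → q.Vert → Set q.Vert) (hsymm : ∀ u v, S u v = S v u)
    (hj : ∀ u v, Joins q (S u v) u v)
    (m : q.Vert → ℝ) (hm : ∀ v, 0 ≤ m v) (h1 : ∑ v, m v = 1) :
    (∑ v : Fin 4 → q.Vert with (Disjoint (S (v 0) (v 1)) (S (v 2) (v 3)) ∧
      P.real {ω | Passage q (S (v 0) (v 1)) (S (v 2) (v 3)) (e ω)} < 1 / (2 * N)),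
        ∏ i, m (v i) ≤ 1 / 3) ∧
    ∀ r : ℝ, 2 * N * r < 1 →
      2 * ∑ v : Fin 4 → q.Vert with (Disjoint (S (v 0) (v 1)) (S (v 2) (v 3)) ∧
        P.real {ω | Passage q (S (v 0) (v 1)) (S (v 2) (v 3)) (e ω)} ≤ r),
          ∏ i, m (v i) ≤
      ∑ v : Fin 4 → q.Vert with (Disjoint (S (v 0) (v 1)) (S (v 2) (v 3)) →
        1 ≤ 4 * (N : ℝ) ^ 2 *
          (r * P.real {ω | Passage q (S (v 0) (v 1)) (S (v 2) (v 3)) (e ω)})),
            ∏ i, m (v i) := by
  refine ⟨?_, fun r hr => ?_⟩
  · have h := bad_le hN hS hst hsymm hj m hm h1
    unfold wt at h
    convert h
  · have h := slow_le_fast hN hS hst hsymm hj m hm hr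
    unfold SlowPair FastPair wt at h
    convert h
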