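import Pool.Agent.Helper363_LBM.BMLoop

/-!
# The time scaling must be at most linear

If random walks on random quadrangulations with `N k` faces (of arbitrary laws, for example
uniform), rescaled in space by `a k → 0` and run at speed `t k`, converge in law in the
Gromov-Hausdorff-Prokhorov-uniform topology to Liouville Brownian motion on a Liouville quantum
gravity sphere, or to any time-changed Brownian motion on any random sphere, then
`t k ≤ C * N k` for a constant `C`. So every superlinear time scaling is ruled out.

* `Defs`: the definitions;
* `Homology`, `Area`, `Loop`: if a closed path in a quadrangulation of the sphere is divided into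
  four sides, and if `f` separates two opposite sides and `g` the other two, then the product of
  the Dirichlet energies of `f` and `g` is bounded from below;
* `Walk`: if the walk moves slowly from all vertices of the path then there are such functions
  whose energy is at most `C * N / K`, where `K` is the number of steps for which it is slow;
* `Prob`: with high probability the walk moves slowly from all vertices which it visits;
* `K33`, `Crossing`, `Transfer`, `Good`: a walk which is uniformly close to a curve on a sphere
  which makes a crossing loop makes such a loop;
* `Corr`, `Main`: the transfer along the convergence in law;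
* `BM`, `BMLoop`: planar Brownian motion makes a crossing loop with positive probability.
-/

set_option autoImplicit false

open scoped NNReal ENNReal Topology
open MeasureTheory ProbabilityTheory Filter Set

open Pool.Agent.Helper363_LBM

/-- Let `Q k` be random quadrangulations of the sphere with `N k` faces, with simple random walks
`e k`. Suppose that, with edges of length `a k → 0`, mass `b k` at every vertex and the walk run at
speed `t k`, they converge in law in the GHPU topology to a random sphere with a time-changed
Brownian motion. Then `t k ≤ C * N k` for all `k`, for some constant `C`. -/
theorem Pool.Agent.Results.MP_7a6434d8_pr.TimeScaleLinear.result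
    {Ωs : ℕ → Type} [∀ k, MeasurableSpace (Ωs k)] (Ps : ∀ k, Measure (Ωs k))
    [∀ k, IsProbabilityMeasure (Ps k)] (N : ℕ → ℕ) (Q : ∀ k, Ωs k → Quad (N k))
    (e : ∀ k, Ωs k → ℕ → Fin (4 * N k)) (hS : ∀ k, IsSRW (Ps k) (Q k) (e k))
    (a b t : ℕ → ℝ≥0) (ha : Tendsto a atTop (𝓝 0))
    {Ω : Type} [MeasurableSpace Ω] (P : Measure Ω) [IsProbabilityMeasure P] (Z : Ω → MMC)
    (hZ : @Measurable Ω MMC _ (borel MMC) Z) (hlim : IsBrownianSphere P Z)
    (hconv : ConvergesInLaw Ps
      (fun k ω => walkSpace (Q k ω) (a k) (b k) (t k) (e k ω) ((hS k).path ω)) P Z) :
    ∃ C : ℝ, ∀ k, (t k : ℝ) ≤ C * N k := by
  obtain ⟨k0, hk0⟩ := hlim.good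
  exact bound_of_good hS ha hZ hconv hk0
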