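import Pool.Agent.Helper363_LBM.Main2

/-!
# The time scaling must be at least linear, up to the maximal degree

If random walks on random quadrangulations with `N k` faces and degrees at most `Δ k`, rescaled in
space by `a k → 0` and run at speed `t k`, converge in law in the
Gromov-Hausdorff-Prokhorov-uniform topology to Liouville Brownian motion on a Liouville quantum
gravity sphere, or to any time-changed Brownian motion on any random sphere, then
`c * N k ≤ t k * Δ k` for large `k`, for a constant `c > 0`.

* `Elec`, `Cross2`: if every path from `L` to `R` through `D` meets every path from `B` to `T`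
  through `D` then the product of the two effective conductances is at most `8 * Δ ^ 2`;
* `Rate`: the probability that the walk crosses from `L` to `R` through `D` in a given time is
  bounded by the conductance;
* `Geo`, `Geo2`: a walk which is close to a curve on a sphere which crosses a square both ways
  crosses a quadrilateral of the map both ways, and the quadrilateral can be chosen from a finite
  family which depends on the map only;
* `Main2`: the transfer along the convergence in law.
-/

set_option autoImplicit false

open scoped NNReal ENNReal Topology
open MeasureTheory ProbabilityTheory Filter Set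

open Pool.Agent.Helper363_LBM

/-- Let `Q k` be random quadrangulations of the sphere with `N k` faces, whose maximal degree is
at most `Δ k` with probability tending to one, with simple random walks `e k` such that the law of
the first dart, given the map, is bounded by `C0 / N k`. Suppose that, with edges of length
`a k → 0`, mass `b k` at every vertex and the walk run at speed `t k`, they converge in law in the
GHPU topology to a random sphere with a time-changed Brownian motion. Then `c * N k ≤ t k * Δ k` for all large `k`, for some
constant `c > 0`. -/
theorem Pool.Agent.Results.MP_7a6434d8_pr.TimeScaleLower.result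
    {Ωs : ℕ → Type} [∀ k, MeasurableSpace (Ωs k)] (Ps : ∀ k, Measure (Ωs k))
    [∀ k, IsProbabilityMeasure (Ps k)] (N : ℕ → ℕ) (Q : ∀ k, Ωs k → Quad (N k))
    (e : ∀ k, Ωs k → ℕ → Fin (4 * N k)) (hS : ∀ k, IsSRW (Ps k) (Q k) (e k))
    (C0 : ℝ) (hC0 : 0 ≤ C0) (hst : ∀ k, StartBounded (Ps k) (Q k) (e k) C0)
    (Δ : ℕ → ℕ)
    (hΔ : Tendsto (fun k => (Ps k).real {ω | ∃ v, Δ k < (Q k ω).deg v}) atTop (𝓝 0))
    (a b t : ℕ → ℝ≥0) (ha : Tendsto a atTop (𝓝 0))
    {Ω : Type} [MeasurableSpace Ω] (P : Measure Ω) [IsProbabilityMeasure P] (Z : Ω → MMC)
    (hZ : @Measurable Ω MMC _ (borel MMC) Z) (hlim : IsBrownianSphere P Z)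
    (hconv : ConvergesInLaw Ps
      (fun k ω => walkSpace (Q k ω) (a k) (b k) (t k) (e k ω) ((hS k).path ω)) P Z) :
    ∃ c : ℝ, 0 < c ∧ ∀ᶠ k in atTop, c * N k ≤ t k * Δ k := by
  obtain ⟨k0, hk0⟩ := hlim.good2
  exact lower_of_good2 hS hC0 hst hΔ ha hZ hconv hk0
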